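import Pool.Agent.H16.TO.Targets

/-!
# Row FB of the board tw_modules
-/

set_option autoImplicit false

namespace Pool.Agent.H65.TW

open Pool.Agent.H16.TO

theorem pf_fb : T_FB := by
  intro ι Θ _ _ _ _ f t
  induction t with
  | zero =>
    intro m hm
    refine ⟨fun _ => Classical.arbitrary Θ, fun σ θ => ?_⟩
    have h := hm σ
    rw [Finset.range_zero, Finset.filter_empty, Finset.card_empty, Finset.sum_eq_zero_iff] at h
    rw [Finset.range_zero, Finset.filter_empty, Finset.card_empty, h θ (Finset.mem_univ θ)]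
  | succ t ih =>
    intro m hm
    have hcard : ∀ σ, ((Finset.range (t + 1)).filter fun a => f a = σ).card =
        ((Finset.range t).filter fun a => f a = σ).card + if f t = σ then 1 else 0 := by
      intro σ
      rw [Finset.range_add_one, Finset.filter_insert]
      by_cases h : f t = σ
      · rw [if_pos h, if_pos h, Finset.card_insert_of_notMem (by simp)]
      · rw [if_neg h, if_neg h, Nat.add_zero]
    obtain ⟨θ₀, hθ₀⟩ : ∃ θ, m (f t, θ) ≠ 0 := by
      by_contra hno
      push Not at hno
      have h1 := hm (f t)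
      rw [hcard, if_pos rfl, Finset.sum_eq_zero (fun θ _ => hno θ)] at h1
      omega
    have hdec : ∀ σ θ, m (σ, θ) = (if σ = f t ∧ θ = θ₀ then m (σ, θ) - 1 else m (σ, θ)) +
        (if σ = f t ∧ θ = θ₀ then 1 else 0) := by
      intro σ θ
      by_cases h : σ = f t ∧ θ = θ₀
      · rw [if_pos h, if_pos h]
        have h2 : m (σ, θ) ≠ 0 := by
          rw [h.1, h.2]
          exact hθ₀
        omega
      · rw [if_neg h, if_neg h, Nat.add_zero]
    obtain ⟨g, hg⟩ := ih (fun p => if p.1 = f t ∧ p.2 = θ₀ then m p - 1 else m p) (by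
      intro σ
      have h1 := hm σ
      rw [hcard] at h1
      have h2 : ∑ θ, m (σ, θ) = (∑ θ, if σ = f t ∧ θ = θ₀ then m (σ, θ) - 1 else m (σ, θ)) +
          ∑ θ, (if σ = f t ∧ θ = θ₀ then 1 else 0) := by
        rw [← Finset.sum_add_distrib]
        exact Finset.sum_congr rfl fun θ _ => hdec σ θ
      have h3 : (∑ θ : Θ, (if σ = f t ∧ θ = θ₀ then 1 else 0)) = if f t = σ then 1 else 0 := by
        by_cases h : f t = σ
        · rw [if_pos h]
          have h4 : ∀ θ : Θ, (if σ = f t ∧ θ = θ₀ then 1 else 0) = if θ = θ₀ then 1 else 0 := by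
            intro θ
            simp only [h, true_and]
          rw [Finset.sum_congr rfl fun θ _ => h4 θ, Finset.sum_ite_eq' Finset.univ θ₀,
            if_pos (Finset.mem_univ θ₀)]
        · rw [if_neg h]
          exact Finset.sum_eq_zero fun θ _ => if_neg fun h5 => h h5.1.symm
      simp only
      omega)
    refine ⟨Function.update g t θ₀, fun σ θ => ?_⟩
    have h1 : ((Finset.range t).filter fun a => f a = σ ∧ Function.update g t θ₀ a = θ) =
        (Finset.range t).filter fun a => f a = σ ∧ g a = θ := by
      apply Finset.filter_congr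
      intro a ha
      have h2 : a ≠ t := (Finset.mem_range.1 ha).ne
      rw [Function.update_of_ne h2]
    rw [Finset.range_add_one, Finset.filter_insert, Function.update_self, h1]
    have h3 := hg σ θ
    simp only at h3
    rw [hdec σ θ, ← h3]
    by_cases h : f t = σ ∧ θ₀ = θ
    · rw [if_pos h, if_pos (⟨h.1.symm, h.2.symm⟩ : σ = f t ∧ θ = θ₀),
        Finset.card_insert_of_notMem (by simp)]
    · rw [if_neg h, if_neg (fun h5 : σ = f t ∧ θ = θ₀ => h ⟨h5.1.symm, h5.2.symm⟩), Nat.add_zero]

end Pool.Agent.H65.TW
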