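import Pool.Agent.H16.TO.Targets

/-!
# Row RC of the board tw_modules
-/

set_option autoImplicit false

namespace Pool.Agent.H65.TW

open Pool.Agent.H16.TO

/-- the numbers of the elements of state `σ` which get the type `θ` -/
lemma stepNumbers {Λ Θ : Type} [Fintype Λ] [Fintype Θ] [DecidableEq Λ] [DecidableEq Θ]
    (K : ℕ) (lam : ℕ → Λ) (th : ℕ → ℕ → Θ) (t : ℕ) (σ : St Λ Θ K) :
    ∑ θ, ((Finset.range t).filter fun a => stt K lam th t a = σ ∧ th a t = θ).card =
      conf K lam th t σ := by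
  unfold conf
  rw [Finset.card_eq_sum_card_fiberwise (f := fun a => th a t) (t := Finset.univ)
    (fun a _ => Finset.mem_coe.2 (Finset.mem_univ _))]
  apply Finset.sum_congr rfl
  intro θ _
  rw [Finset.filter_filter]

theorem pf_rc (hRS : T_RS) (hRX : T_RX) : T_RC := by
  intro Λ Θ _ _ _ _ _ _ K t
  induction t with
  | zero =>
    intro c
    constructor
    · intro h
      refine ⟨fun _ => Classical.arbitrary Λ, fun _ _ => Classical.arbitrary Θ, ?_⟩
      have h1 : c = 0 := h
      rw [h1]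
      funext σ
      simp [conf]
    · rintro ⟨lam, th, rfl⟩
      show conf K lam th 0 = 0
      funext σ
      simp [conf]
  | succ t ih =>
    intro c'
    constructor
    · rintro ⟨c, b, m, hc, hstep⟩
      obtain ⟨lam, th, rfl⟩ := (ih c).1 hc
      obtain ⟨lam', th', hb, -, -, hconf, hm⟩ := hRX Λ Θ K lam th t b m hstep.1
      have h1 := (hRS Λ Θ K lam' th' t m hm).2.2
      refine ⟨lam', th', ?_⟩
      funext σ
      rw [h1.2 σ, hb]
      exact hstep.2 σ
    · rintro ⟨lam, th, rfl⟩
      exact ⟨conf K lam th t, lam t,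
        fun p => ((Finset.range t).filter fun a => stt K lam th t a = p.1 ∧ th a t = p.2).card,
        (ih _).2 ⟨lam, th, rfl⟩, (hRS Λ Θ K lam th t _ (fun _ _ => rfl)).2.2⟩

theorem pf_ro (hRS : T_RS) (hRX : T_RX) (hRC : T_RC) : T_RO := by
  intro Λ Θ _ _ _ _ _ _ K Ok n
  constructor
  · rintro ⟨lam, th, h⟩
    obtain ⟨h1, h2, -⟩ := hRS Λ Θ K lam th n
      (fun p => ((Finset.range n).filter fun a => stt K lam th n a = p.1 ∧ th a n = p.2).card)
      (fun _ _ => rfl)
    have hok : ∀ a < n + 1, OkSt Ok (stt K lam th (n + 1) a) := fun a ha => h a ha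
    refine ⟨conf K lam th n, lam n,
      fun p => ((Finset.range n).filter fun a => stt K lam th n a = p.1 ∧ th a n = p.2).card,
      (hRC Λ Θ K n _).2 ⟨lam, th, rfl⟩, fun σ => stepNumbers K lam th n σ, ?_, ?_⟩
    · rintro ⟨σ, θ⟩ hp
      obtain ⟨a, ha⟩ := Finset.card_ne_zero.1 hp
      rw [Finset.mem_filter, Finset.mem_range] at ha
      obtain ⟨ha1, ha2, ha3⟩ := ha
      have h3 := h1 a ha1
      rw [ha2, ha3] at h3
      simp only
      rw [← h3]
      exact hok a (by omega)
    · rw [← h2]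
      exact hok n (by omega)
  · rintro ⟨c, b, m, hc, hm, hok1, hok2⟩
    obtain ⟨lam, th, rfl⟩ := (hRC Λ Θ K n c).1 hc
    obtain ⟨lam', th', hb, -, -, hconf, hm'⟩ := hRX Λ Θ K lam th n b m hm
    obtain ⟨h1, h2, -⟩ := hRS Λ Θ K lam' th' n m hm'
    refine ⟨lam', th', fun a ha => ?_⟩
    have key : OkSt Ok (stt K lam' th' (n + 1) a) := by
      rcases Nat.lt_or_ge a n with h3 | h3
      · rw [h1 a h3, hb]
        refine hok1 (stt K lam' th' n a, th' a n) ?_
        rw [hm']
        exact Finset.card_ne_zero.2 ⟨a, Finset.mem_filter.2 ⟨Finset.mem_range.2 h3, rfl, rfl⟩⟩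
      · have h4 : a = n := by omega
        rw [h4, h2, hb]
        exact hok2
    exact key

end Pool.Agent.H65.TW
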