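import Pool.Agent.H16.TO.Targets

/-!
# Row RX of the board tw_modules
-/

set_option autoImplicit false

namespace Pool.Agent.H65.TW

open Pool.Agent.H16.TO

theorem pf_rx (hFB : T_FB) : T_RX := by
  intro Λ Θ _ _ _ _ _ K lam th t b m hm
  obtain ⟨g, hg⟩ := hFB (St Λ Θ K) Θ (fun a => stt K lam th t a) t m (fun σ => hm σ)
  have hlam : ∀ a < t, Function.update lam t b a = lam a := fun a ha =>
    Function.update_of_ne ha.ne _ _
  have hst : ∀ a < t, stt K (Function.update lam t b) (fun a c => if c = t then g a else th a c) t a
      = stt K lam th t a := by
    intro a ha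
    unfold stt
    rw [hlam a ha]
    have h1 : ∀ p, Lc (Function.update lam t b) (fun a c => if c = t then g a else th a c) a p =
        Lc lam th a p := by
      intro p
      unfold Lc
      congr 1
      apply Finset.filter_congr
      intro c hc
      rw [hlam c ((Finset.mem_range.1 hc).trans ha)]
      simp only [if_neg ha.ne]
    have h2 : ∀ p, Rc (Function.update lam t b) (fun a c => if c = t then g a else th a c) a t p =
        Rc lam th a t p := by
      intro p
      unfold Rc
      congr 1
      apply Finset.filter_congr
      intro c hc
      have h3 := (Finset.mem_Ico.1 hc).2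
      rw [hlam c h3]
      simp only [if_neg h3.ne]
    simp only [h1, h2]
  refine ⟨Function.update lam t b, fun a c => if c = t then g a else th a c,
    Function.update_self _ _ _, hlam, ?_, ?_, ?_⟩
  · intro a _ c hc
    exact if_neg hc.ne
  · funext σ
    unfold conf
    congr 1
    apply Finset.filter_congr
    intro a ha
    rw [hst a (Finset.mem_range.1 ha)]
  · intro σ θ
    rw [← hg σ θ]
    congr 1
    apply Finset.filter_congr
    intro a ha
    rw [hst a (Finset.mem_range.1 ha)]
    simp only [if_true]

end Pool.Agent.H65.TW
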